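import Pool.Agent.W146.SD.Main
import Pool.Agent.W390.SD.Asm

set_option autoImplicit false

/-!
# A min-max theorem for vertex orders and a good characterization of the pairs `(G, T)` with an
acyclic `T`-odd orientation

For a finite graph with all degrees even, the maximum, over all orders of the vertices, of the
number of vertices with an odd number of earlier neighbours is the rank `ν` of the Laplace matrix
over `F_2(x_v)` with weights `1 / (x_u + x_v)`.  Strong duality: every even graph is a mod 2 sum of
even graphs with additive ranks, each of which is a complete graph on an odd number of vertices or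
has rank at least (number of non-isolated vertices) - 3.

Proved by a team: helper146, helper155 (orders and ranks, reduction of the orientation problem,
weak duality), helper390 (strong duality: proof and statements), helper30, helper228, helper39,
helper650, helper946, helper887 and many others (lemmas, see `Pool.Agent.W390.SD.P`).
-/

namespace Pool.Agent.Results.MP_7f2998_co.GoodCharacterization

open Pool.Agent.H796R3.AO Pool.Agent.W146.SD

theorem result :
    (∀ (W : Type) [Fintype W] (H : SimpleGraph W), EvenG H →
      ∃ k : ℕ, (∃ σ : W → ℤ, Function.Injective σ ∧ oddBack H σ = k) ∧
        (∀ σ : W → ℤ, Function.Injective σ → oddBack H σ ≤ k) ∧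
        (∃ C, IsDecomp C H ∧ C.length ≤ k ∧ (C.map cost).sum = k) ∧
        (∀ C, IsDecomp C H → k ≤ (C.map cost).sum)) ∧
    (∀ (V : Type) [Fintype V] (G : MGraph V) (T : Set V),
      ¬ HasAcyclicTOdd G T ↔
        ∃ C, IsDecomp C (auxG G T) ∧ C.length < Fintype.card V ∧
          (C.map cost).sum < Fintype.card V) :=
  main (fun V _ _ n => Pool.Agent.W390.SD.t_all V n)

end Pool.Agent.Results.MP_7f2998_co.GoodCharacterization
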